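import Mathlib
import Pool.Agent.V1179.Peak.Gevrey

/-!
# A peak set for `A_{1/2}` which is not a zero set for the Gevrey class `G_{1/2}`

Put `y_n = L (n+1) (log₂(n+1) + 1)²` with a large constant `L` and
`E = {1} ∪ {(y_n - i)/(y_n + i)}`. The function
`h(z) = 2/(1-z) + ∑ (2/y_n) (1/(1 - c_n z) + 1/(1 - b_n z))`, where `c_n` is the conjugate of the
`n`-th point and `b_n = y_n/(y_n - 2i)`, has real part at least `1`, and its modulus is comparable
with the sum of the moduli of its terms. Hence `1/h` is Hölder continuous of order `1/2` on the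
closed disc and vanishes exactly on `E`, and `1 - 1/h` is a peak function. On the other hand the
integral of `dist(ζ, E)^{-1/2}` diverges, while Taylor's formula and Jensen's formula bound this
integral for every zero set of `G_{1/2}`.
-/

set_option autoImplicit false

namespace Pool.Agent.Results.MP_129fce_an.PeakNotZero

open Metric Filter Topology

/-- The class `A_α`. -/
def InA (α : ℝ) (f : ℂ → ℂ) : Prop :=
  DifferentiableOn ℂ f (ball 0 1) ∧ ContinuousOn f (closedBall 0 1) ∧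
    ∃ C : ℝ, ∀ z w : ℂ, ‖z‖ = 1 → ‖w‖ = 1 → ‖f z - f w‖ ≤ C * ‖z - w‖ ^ α

/-- Peak sets for `A_α`. -/
def IsPeakSet (α : ℝ) (E : Set ℂ) : Prop :=
  IsClosed E ∧ E ⊆ sphere 0 1 ∧ ∃ f : ℂ → ℂ, InA α f ∧ (∀ z ∈ E, f z = 1) ∧
    ∀ z : ℂ, ‖z‖ = 1 → z ∉ E → ‖f z‖ < 1

/-- The Gevrey class `G_α`. -/
def InG (α : ℝ) (f : ℂ → ℂ) : Prop :=
  DifferentiableOn ℂ f (ball 0 1) ∧ ∃ C : ℝ, ∀ n : ℕ, ∀ z ∈ ball (0 : ℂ) 1,
    ‖iteratedDeriv n f z‖ ≤ C ^ (n + 1) * (n.factorial : ℝ) ^ (1 + 1 / α)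

/-- Zero sets for `G_α`: all derivatives of a nonzero member vanish (in the limit) at each point
of the set. -/
def IsZeroSet (α : ℝ) (E : Set ℂ) : Prop :=
  E ⊆ sphere 0 1 ∧ ∃ f : ℂ → ℂ, InG α f ∧ (∃ z ∈ ball (0 : ℂ) 1, f z ≠ 0) ∧
    ∀ n : ℕ, ∀ ζ ∈ E, Tendsto (iteratedDeriv n f) (𝓝[ball 0 1] ζ) (𝓝 0)

theorem result : ∃ E : Set ℂ, IsPeakSet (1 / 2) E ∧ ¬ IsZeroSet (1 / 2) E := by
  refine ⟨V1179.Peak.E, ⟨V1179.Peak.E_compact.isClosed, V1179.Peak.E_sub,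
    fun z => 1 - V1179.Peak.F z, ⟨?_, ?_, 12000, ?_⟩, ?_, ?_⟩, ?_⟩
  · exact (differentiableOn_const 1).sub V1179.Peak.F_diff
  · exact continuousOn_const.sub V1179.Peak.F_cont
  · intro z w hz hw
    have h1 := V1179.Peak.F_holder hw.le hz.le
    have h2 : (1 - V1179.Peak.F z) - (1 - V1179.Peak.F w) = V1179.Peak.F w - V1179.Peak.F z := by
      ring
    rw [h2, ← Real.sqrt_eq_rpow, norm_sub_rev z w]
    exact h1
  · intro z hz
    have h1 : ‖z‖ ≤ 1 := by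
      have := V1179.Peak.E_sub hz
      rw [mem_sphere_zero_iff_norm] at this
      exact this.le
    simp only
    rw [V1179.Peak.F_of_not (fun h => (V1179.Peak.mem_D_iff h1).1 h hz), sub_zero]
  · intro z hz hzE
    exact V1179.Peak.peak ((V1179.Peak.mem_D_iff hz.le).2 hzE)
  · rintro ⟨-, f, ⟨hf, C, hC⟩, ⟨z, hz, hz0⟩, hE⟩
    exact hz0 (V1179.Peak.not_gevrey hf hC (fun n e he => hE n e he) z hz)

end Pool.Agent.Results.MP_129fce_an.PeakNotZero
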